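import Pool.Agent.Lib.HC.L.Base

/-!
# PROJECT SE: the Hodge conjecture beyond CM -- definitions (note 4523 on MP_640417_ag)

* `IsPoly f`: `f` is a polynomial function on a complex vector space.
* `Crv T`: an affine plane curve with a holomorphic map of finite area to `T = V / L`.
* `Alg2 T m c`: `c` is a `ℂ`-linear combination of classes of algebraic cycles of `T`; `HC.Alg` with
  one more rule (`fam`): images of algebraic subsets of products of curves.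
* `IsCov m s b`: the conditions on the curve `y ^ m = ∏_j (x - s_j) ^ b_j`.
* `New T m s b`: `T` is (isogenous to) the new part of the Jacobian of the curve
  `y ^ m = ∏_j (x - s_j) ^ b_j`.
* `Lef Z E`: the Lie algebra `u_E (H_1(T))`. `SUK`: a class is killed by the `su_E (H_1(J_i))`.
* `ThmK`, `ThmB`: the targets.
-/

set_option autoImplicit false

open MeasureTheory Topology

noncomputable section

namespace HC.SE

/-- `f` is a polynomial function on the complex vector space `E`. -/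
def IsPoly {E : Type} [AddCommGroup E] [Module ℂ E] (f : E → ℂ) : Prop :=
  f ∈ Algebra.adjoin ℂ (Set.range fun (l : E →ₗ[ℂ] ℂ) (v : E) => l v)

/-- The affine plane curve `P (x, y) = 0`, étale over the line outside the finite set `S`, with a
holomorphic map to `T = V / L` given outside `S`: at the point `(x, y)` its value is `α x y` modulo
`L` and its derivative with respect to `x` is `ω x y`. It has finite area, so it extends to the
compact smooth curve (a square integrable holomorphic differential has no pole). -/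
structure Crv (T : AV) where
  P : ℂ × ℂ → ℂ
  S : Set ℂ
  α : ℂ → ℂ → T.V
  ω : ℂ → ℂ → T.V
  poly : IsPoly P
  fin : S.Finite
  et : ∀ x ∉ S, ∀ y, P (x, y) = 0 → deriv (fun y => P (x, y)) y ≠ 0
  map : ∀ x₀ ∉ S, ∀ y₀, P (x₀, y₀) = 0 → ∃ (η : ℂ → ℂ) (g : ℂ → T.V),
    η x₀ = y₀ ∧ ContinuousAt η x₀ ∧ ∀ᶠ x in 𝓝 x₀,
      P (x, η x) = 0 ∧ α x (η x) - g x ∈ T.L ∧ HasDerivAt g (ω x (η x)) x
  area : Integrable fun x => ∑ᶠ y ∈ {y | P (x, y) = 0}, ‖ω x y‖ ^ 2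

/-- The homology classes of algebraic cycles, with complex coefficients. -/
inductive Alg2 : (T : AV) → (m : ℕ) → Hlg T m → Prop
  /-- the classes in `HC.Alg` (images of compact complex manifolds `D / Γ`, …) -/
  | base {T : AV} {m : ℕ} {c : Hlg T m} (hc : Alg T m c) : Alg2 T m c
  /-- the image of an algebraic set `X` of dimension `r`: the points of `X` over the point `z` of the
  open set `g ≠ 0` of `ℂ^r` are the points `(x_j(z), y_j)_j` of a product of curves, `x_j` rational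
  functions, which satisfy the polynomial equations `F`; the map to `T` is the sum of the maps of
  the curves to abelian varieties `T' j` followed by homomorphisms `T' j → T`; `c (a₁, …, a_2r)` is
  the integral of the pull back of `a₁ ∧ … ∧ a_2r` over `X` -/
  | fam {T : AV} {r N : ℕ} {T' : Fin N → AV} (γ : ∀ j, Crv (T' j))
      (φ : ∀ j, (T' j).V →ₗ[ℂ] T.V) (hφ : ∀ j, ∀ v ∈ (T' j).L, φ j v ∈ T.L)
      (g : (Fin r → ℂ) → ℂ) (hg : IsPoly g) (hg0 : ∃ z, g z ≠ 0) (x : Fin N → (Fin r → ℂ) → ℂ)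
      (hx : ∀ j, ∃ p q : (Fin r → ℂ) → ℂ, IsPoly p ∧ IsPoly q ∧
        ∀ z, g z ≠ 0 → q z ≠ 0 ∧ x j z = p z / q z)
      (hS : ∀ j z, g z ≠ 0 → x j z ∉ (γ j).S)
      (F : Set ((Fin r → ℂ) × (Fin N → ℂ) → ℂ)) (hF : ∀ f ∈ F, IsPoly f) (c : Hlg T (2 * r))
      (hc : ∀ a : Fin (2 * r) → (T.V →ₗ[ℝ] ℂ), c a = ∫ z in {z | g z ≠ 0},
        ∑ᶠ y ∈ {y : Fin N → ℂ | (∀ j, (γ j).P (x j z, y j) = 0) ∧ ∀ f ∈ F, f (z, y) = 0},
          Matrix.det (Matrix.of fun i l =>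
            a i (∑ j, fderiv ℂ (x j) z (frame r l) • φ j ((γ j).ω (x j z) (y j))))) :
      Alg2 T (2 * r) c
  /-- the image under a homomorphism of abelian varieties -/
  | push {T T' : AV} {m : ℕ} (φ : T.V →ₗ[ℂ] T'.V) (hφ : ∀ x ∈ T.L, φ x ∈ T'.L) {c : Hlg T m}
      (hc : Alg2 T m c) : Alg2 T' m (push φ c)
  /-- the Pontryagin product -/
  | pont {T : AV} {m n : ℕ} {c : Hlg T m} {d : Hlg T n} (hc : Alg2 T m c) (hd : Alg2 T n d) :
      Alg2 T (m + n) (pont c d)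
  /-- the intersection with a divisor -/
  | cap {T : AV} {m r : ℕ} (p q : Fin r → (T.V →ₗ[ℝ] ℂ)) (h : IsDiv T p q)
      {c : Hlg T (m + 2)} (hc : Alg2 T (m + 2) c) : Alg2 T m (cap p q c)
  /-- linear combinations -/
  | zero {T : AV} {m : ℕ} : Alg2 T m 0
  | add {T : AV} {m : ℕ} {c d : Hlg T m} (hc : Alg2 T m c) (hd : Alg2 T m d) : Alg2 T m (c + d)
  | smul {T : AV} {m : ℕ} (x : ℂ) {c : Hlg T m} (hc : Alg2 T m c) : Alg2 T m (x • c)

/-- The curve `y ^ m = ∏_j (x - s_j) ^ b_j`, `m ≥ 3`, is irreducible and branched at the points `s_j` and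
at infinity (every connected cyclic covering of degree `m` of the projective line is of this form if
the coordinate `x` is chosen such that `∞` is a branch point). -/
def IsCov (m : ℕ) {r : ℕ} (s : Fin (r + 1) → ℂ) (b : Fin (r + 1) → ℕ) : Prop :=
  3 ≤ m ∧ Function.Injective s ∧ (∀ j, ¬ m ∣ b j) ∧ ¬ m ∣ ∑ j, b j ∧
    ∀ d, d ∣ m → (∀ j, d ∣ b j) → d = 1

/-- `T` is isogenous to the new part of the Jacobian of the curve `y ^ m = ∏_j (x - s_j) ^ b_j`,
`j = 0, …, r`: `Z` is an automorphism of `T` with minimal polynomial the cyclotomic polynomial `Φ_m`,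
`2 dim T = r φ(m)`, there is a map from the curve to `T`, compatible with
`(x, y) ↦ (x, exp (2 π i / m) y)` and `Z`, and the differentials of the first kind
`x ^ i y ^ u dx / ∏_j (x - s_j) ^ (1 + [u b_j / m])`, `(u, m) = 1`, `m i + ∑_j (u b_j mod m) < m r`, of the
curve are induced by differentials of `T`. -/
structure New (T : AV) (m : ℕ) {r : ℕ} (s : Fin (r + 1) → ℂ) (b : Fin (r + 1) → ℕ) where
  Z : Module.End ℂ T.V
  γ : Crv T
  lat : ∀ v ∈ T.L, Z v ∈ T.L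
  cyc : Polynomial.aeval Z (Polynomial.cyclotomic m ℤ) = 0
  dim : 2 * Module.finrank ℂ T.V = r * m.totient
  P : ∀ x y, γ.P (x, y) = y ^ m - ∏ j, (x - s j) ^ b j
  S : γ.S = Set.range s
  equ : ∀ x ∉ γ.S, ∀ y, γ.P (x, y) = 0 →
    γ.ω x (Complex.exp (2 * Real.pi * Complex.I / m) * y) = Z (γ.ω x y)
  dif : ∀ u < m, u.Coprime m → ∀ i, m * i + ∑ j, (u * b j) % m < m * r →
    ∃ B : T.V →ₗ[ℂ] ℂ, ∀ x ∉ γ.S, ∀ y, γ.P (x, y) = 0 →
      B (γ.ω x y) = x ^ i * y ^ u / ∏ j, (x - s j) ^ (1 + u * b j / m)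

/-- `E` is a Riemann form of `T` with `E (Z u) (Z v) = E u v`. -/
def IsPol (T : AV) (Z : Module.End ℂ T.V) (E : T.V →ₗ[ℝ] T.V →ₗ[ℝ] ℝ) : Prop :=
  (∀ u ∈ T.L, ∀ v ∈ T.L, ∃ n : ℤ, E u v = n) ∧ (∀ u v, E u v = -E v u) ∧
    (∀ u v, E (Complex.I • u) (Complex.I • v) = E u v) ∧
    (∀ v, v ≠ 0 → 0 < E (Complex.I • v) v) ∧ ∀ u v, E (Z u) (Z v) = E u v

/-- The Lie algebra of the real endomorphisms of `H_1(T, ℝ)` which commute with `Z` and are skew
for `E`: `u_F(H_1(T))`, `F = ℚ(Z)` the cyclotomic field; the real span of its commutators is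
`su_F(H_1(T))`. -/
def Lef (T : AV) (Z : Module.End ℂ T.V) (E : T.V →ₗ[ℝ] T.V →ₗ[ℝ] ℝ) :
    Set (Module.End ℝ T.V) :=
  {X | (∀ v, X (Z v) = Z (X v)) ∧ ∀ u v, E (X u) v + E u (X v) = 0}

/-- The action of a real endomorphism `X` on homology as a derivation:
`(X c)(a_1, …, a_m) = ∑_i c(a_1, …, a_i ∘ X, …, a_m)`. -/
def dact {T : AV} {m : ℕ} (X : Module.End ℝ T.V) (c : Hlg T m)
    (a : Fin m → (T.V →ₗ[ℝ] ℂ)) : ℂ :=
  ∑ i, c (Function.update a i (a i ∘ₗ X))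

/-- A class of `T ≅ A × ∏_n J_(j n)` is killed by the commutators of the elements of
`∏_i u(H_1(J_i))`, acting diagonally (by the component `j n` on the factor `n`). -/
def SUK {A T : AV} {q N : ℕ} {J : Fin q → AV} {j : Fin N → Fin q}
    (Z : ∀ i, Module.End ℂ (J i).V) (E : ∀ i, (J i).V →ₗ[ℝ] (J i).V →ₗ[ℝ] ℝ)
    (ψ : T.V ≃ₗ[ℂ] A.V × (∀ n, (J (j n)).V)) {m : ℕ} (c : Hlg T m) : Prop :=
  ∀ P Q : ∀ i, Module.End ℝ (J i).V, (∀ i, P i ∈ Lef (J i) (Z i) (E i)) →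
    (∀ i, Q i ∈ Lef (J i) (Z i) (E i)) → ∀ X : Module.End ℝ T.V,
      (∀ v, ψ (X v) = (0, fun n => (P * Q - Q * P) (j n) ((ψ v).2 n))) → ∀ a, dact X c a = 0

/-- THEOREM K. Let `A` be of CM type and `J_i` the new part of the Jacobian of
`y ^ m_i = ∏_l (x - s_(i,l)) ^ b_(i,l)`. Every Hodge class on an
abelian variety isogenous to `A × ∏_n J_(j n)` which is killed by the Lie algebras `su(H_1(J_i))` is
algebraic. -/
def ThmK : Prop :=
  ∀ (A T : AV) (q N : ℕ) (J : Fin q → AV) (j : Fin N → Fin q) (m r : Fin q → ℕ)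
    (s : ∀ i, Fin (r i + 1) → ℂ) (b : ∀ i, Fin (r i + 1) → ℕ)
    (D : ∀ i, New (J i) (m i) (s i) (b i)) (E : ∀ i, (J i).V →ₗ[ℝ] (J i).V →ₗ[ℝ] ℝ)
    (ψ : T.V ≃ₗ[ℂ] A.V × (∀ n, (J (j n)).V)),
    IsCM A → (∀ i, IsCov (m i) (s i) (b i)) →
    (∀ i, IsPol (J i) (D i).Z (E i)) →
    (∀ v ∈ T.L, ∃ k : ℕ, k ≠ 0 ∧ k • (ψ v).1 ∈ A.L ∧ ∀ n, k • (ψ v).2 n ∈ (J (j n)).L) →
    ∀ (d : ℕ) (c : Hlg T d), IsHodge T d c → SUK (fun i => (D i).Z) E ψ c → Alg2 T d c

/-- The Hodge Lie algebra of `∏_i J_i` contains `∏_i su(H_1(J_i))`: every set `h` of tuples of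
rational endomorphisms, closed under commutators, with `i` in its real span, has the commutators of
`∏_i u(H_1(J_i))` in the real span of its commutators. -/
def Big {q : ℕ} (J : Fin q → AV) (Z : ∀ i, Module.End ℂ (J i).V)
    (E : ∀ i, (J i).V →ₗ[ℝ] (J i).V →ₗ[ℝ] ℝ) : Prop :=
  ∀ h : Set (∀ i, Module.End ℝ (J i).V), (∀ X ∈ h, ∀ i, RatEnd (J i) (X i)) →
    (∀ X ∈ h, ∀ Y ∈ h, X * Y - Y * X ∈ h) →
    (fun i => ((Complex.I • (LinearMap.id : (J i).V →ₗ[ℂ] (J i).V)).restrictScalars ℝ :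
      Module.End ℝ (J i).V)) ∈ Submodule.span ℝ h →
    ∀ P Q : ∀ i, Module.End ℝ (J i).V, (∀ i, P i ∈ Lef (J i) (Z i) (E i)) →
      (∀ i, Q i ∈ Lef (J i) (Z i) (E i)) →
      P * Q - Q * P ∈ Submodule.span ℝ {W | ∃ X ∈ h, ∃ Y ∈ h, W = X * Y - Y * X}

/-- THEOREM B: if moreover the Hodge Lie algebra of `∏_i J_i` contains `∏_i su(H_1(J_i))`, the Hodge
conjecture holds for the abelian varieties isogenous to `A × ∏_n J_(j n)`. -/
def ThmB : Prop :=
  ∀ (A T : AV) (q N : ℕ) (J : Fin q → AV) (j : Fin N → Fin q) (m r : Fin q → ℕ)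
    (s : ∀ i, Fin (r i + 1) → ℂ) (b : ∀ i, Fin (r i + 1) → ℕ)
    (D : ∀ i, New (J i) (m i) (s i) (b i)) (E : ∀ i, (J i).V →ₗ[ℝ] (J i).V →ₗ[ℝ] ℝ),
    IsCM A → (∀ i, IsCov (m i) (s i) (b i)) →
    (∀ i, IsPol (J i) (D i).Z (E i)) → Big J (fun i => (D i).Z) E →
    IsProdE T A (fun n => J (j n)) → ∀ (d : ℕ) (c : Hlg T d), IsHodge T d c → Alg2 T d c

end HC.SE
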