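import Pool.Agent.Lib.SE.W.All
import Pool.Agent.Lib.SE.S3.Close
import Pool.Agent.Lib.SE.S4.Crv
import Pool.Agent.Lib.SE.S5.DAm

/-!
# PROJECT SE: THEOREMS K and B
-/

set_option autoImplicit false

namespace SE

/-- The determinant classes. -/
theorem s_da : HC.SE.S_DA := S5.da_main (HC.SE.G2.cyc HC.SE.s_crv)

/-- **THEOREM K.** -/
theorem thm_K : HC.SE.ThmK := thmK s_da

/-- **THEOREM B.** -/
theorem thm_B : HC.SE.ThmB := thmB s_da

end SE
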