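import Pool.Agent.Lib.SE.Defs
import Pool.Agent.Lib.SE.S4.Ty
import Pool.Agent.Lib.SE.W.Defs

/-!
# PROJECT SE: the interface of the geometric part (G1, G2, G3) and S5 -- second version

Everything over `E = ℚ(ζ)`, `ζ` a primitive `m`-th root of unity, `sg m ζ φ` the exponent `u` with
`φ ζ = exp (2 π i / m) ^ u` (SE/S4/Ty), `Ph m ζ c d` the CM type of `y ^ m = x ^ c (1 - x) ^ d`.

* `Cm1 E Φ`: a copy of `ℂ^Φ / Φ(O_E)`; `T.w χ` is the real linear function with the value `χ y` at the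
  lattice vector of `y`.
* `S_cm1` (helper12): they exist. `S_crv` (G3): the curve with its map.
* `S_cyc` (G1 + G2): the class of the cycle and its components at ALL labels `φ`.
* `S_DA` (G4): the output for helper42's part.
-/

set_option autoImplicit false

open scoped ComplexConjugate

noncomputable section

namespace HC.SE

open _root_.SE _root_.SE.S4

/-- A copy of `ℂ^Φ / Φ(O_E)`. -/
structure Cm1 (E : Type) [Field E] (Φ : Set (E →+* ℂ)) where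
  T : AV
  ψ : T.V ≃ₗ[ℂ] (Φ → ℂ)
  lat : ∀ v, v ∈ T.L ↔ ∃ y : E, IsIntegral ℤ y ∧ ∀ φ : Φ, ψ v φ = φ.1 y

open Classical in
/-- The real linear function with the value `χ y` at the lattice vector of `y`. -/
def Cm1.w {E : Type} [Field E] {Φ : Set (E →+* ℂ)} (T : Cm1 E Φ) (χ : E →+* ℂ) :
    T.T.V →ₗ[ℝ] ℂ :=
  if h : χ ∈ Φ then ((LinearMap.proj ⟨χ, h⟩ : (Φ → ℂ) →ₗ[ℂ] ℂ) ∘ₗ T.ψ.toLinearMap).restrictScalars ℝ
  else if h : NumberField.ComplexEmbedding.conjugate χ ∈ Φ then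
    cjl (((LinearMap.proj ⟨NumberField.ComplexEmbedding.conjugate χ, h⟩ :
      (Φ → ℂ) →ₗ[ℂ] ℂ) ∘ₗ T.ψ.toLinearMap).restrictScalars ℝ)
  else 0

/-- Existence. -/
def S_cm1 : Prop :=
  ∀ (E : Type) [Field E] [NumberField E] [NumberField.IsCMField E] (Φ : Set (E →+* ℂ)),
    IsType Φ → Nonempty (Cm1 E Φ)

/-- (G3) The curve `y ^ m = x ^ c (1 - x) ^ d` with its map. -/
def S_crv : Prop :=
  ∀ (m c d : ℕ), 3 ≤ m → ¬ m ∣ c → ¬ m ∣ d → ¬ m ∣ c + d →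
    ∀ (E : Type) [Field E] [NumberField E] [IsCyclotomicExtension {m} ℚ E] (ζ : E),
    IsPrimitiveRoot ζ m → ∀ T : Cm1 E (Ph m ζ c d),
    ∃ γ : Crv T.T, (∀ x y, γ.P (x, y) = y ^ m - x ^ c * (1 - x) ^ d) ∧ γ.S = {0, 1} ∧
      ∀ φ : Ph m ζ c d, ∃ K : ℂ, K ≠ 0 ∧ ∀ x ∉ γ.S, ∀ y, γ.P (x, y) = 0 →
        T.ψ (γ.ω x y) φ = K * Wf m c d (sg m ζ φ.1) x y / (x * (1 - x))

/-- (G1 + G2) The cycle: for a tree with the leaves `0, …, r` and `r` inner nodes, `c i`, `d i` the sums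
of the `b_j` over the leaves on the left and on the right of the node `i`. `κ` is its class; for
EVERY `φ` its component of the type `(φ, …, φ; conj φ, …, conj φ)` is not zero. The second
condition on `c`, `d` says that the CM types fit. -/
def S_cyc : Prop :=
  ∀ (m r : ℕ) (s : Fin (r + 1) → ℂ) (b : Fin (r + 1) → ℕ), IsCov m s b →
    ∃ c d : Fin r → ℕ, (∀ i, ¬ m ∣ c i ∧ ¬ m ∣ d i ∧ ¬ m ∣ c i + d i) ∧
      (∀ u : ℕ, u.Coprime m →
        (Finset.univ.filter fun i : Fin r => (u * c i) % m + (u * d i) % m < m).card =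
          (Finset.univ.filter fun i : Fin r => m * (i : ℕ) + ∑ j, (u * b j) % m < m * r).card) ∧
      ∀ (E : Type) [Field E] [NumberField E] [IsCyclotomicExtension {m} ℚ E] (ζ : E),
      IsPrimitiveRoot ζ m → ∀ (J : AV) (D : New J m s b)
        (T : ∀ i, Cm1 E (Ph m ζ (c i) (d i))) (Y : AV)
        (ψ : Y.V ≃ₗ[ℂ] J.V × (∀ i, (T i).T.V)), (∀ v ∈ J.L, ψ.symm (v, 0) ∈ Y.L) →
        (∀ i, ∀ v ∈ (T i).T.L, ψ.symm (0, Pi.single i v) ∈ Y.L) →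
        ∃ κ : Hlg Y (2 * r), Alg2 Y (2 * r) κ ∧
          ∀ φ : E →+* ℂ, ∃ a : Fin r → (J.V →ₗ[ℝ] ℂ), (∀ l v, a l (D.Z v) = φ ζ * a l v) ∧
            κ (fun k => if h : k.1 < r
              then pull (LinearMap.fst ℂ _ _ ∘ₗ ψ.toLinearMap) (a ⟨k.1, h⟩)
              else pull (LinearMap.proj ⟨k.1 - r, by omega⟩ ∘ₗ LinearMap.snd ℂ _ _ ∘ₗ
                ψ.toLinearMap)
                ((T ⟨k.1 - r, by omega⟩).w (NumberField.ComplexEmbedding.conjugate φ))) ≠ 0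

/-- (G4) The output for part W: a new Jacobian is a `Tp` with determinant classes in `Alg2`. -/
def S_DA : Prop :=
  ∀ (X : GF) (m r : ℕ) (s : Fin (r + 1) → ℂ) (b : Fin (r + 1) → ℕ), IsCov m s b →
    (∃ ζ : X.K, IsPrimitiveRoot ζ m) → ∀ (J : AV) (D : New J m s b)
    (R : J.V →ₗ[ℝ] J.V →ₗ[ℝ] ℝ), IsPol J D.Z R →
    ∃ (t : Tp X) (hT : t.T = J) (ζ : t.E), IsPrimitiveRoot ζ m ∧
      IsCyclotomicExtension {m} ℚ t.E ∧ (∀ v, t.B.ρ ζ v = hT ▸ D.Z (hT ▸ v)) ∧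
      (∀ u v, t.R u v = R (hT ▸ u) (hT ▸ v)) ∧ Nonempty (DA @Alg2 t)

end HC.SE
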